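import Mathlib
import Pool.Agent.Run7.h705.SR.SIG

/-! Project SR (helper820), piece LOW: the lower bound for the means of the self-similar map. -/

set_option autoImplicit false
open Complex Filter Topology Set Metric MeasureTheory

namespace Run7.h705.SR

open Run7.h820.SR
open Q90.SM (IsSig marshall pmean circ FF)

lemma E_iter {ℓ A E : ℂ → ℂ} {N : ℕ} (hN : N ≠ 0)
    (hfe : ∀ v ∈ ball (0:ℂ) 1, E v = ℓ (v * Complex.exp (A (v ^ N) / N)) + E (v ^ N))
    {v : ℂ} (hv : v ∈ ball (0:ℂ) 1) (n : ℕ) :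
    E v = ∑ j ∈ Finset.range n, ℓ (v ^ (N ^ j) * Complex.exp (A ((v ^ (N ^ j)) ^ N) / N)) + E (v ^ (N ^ n)) := by
  induction n with
  | zero => simp
  | succ n ih =>
    have hm : v ^ (N ^ n) ∈ ball (0:ℂ) 1 := by
      rw [mem_ball_zero_iff] at hv ⊢
      rw [norm_pow]
      exact pow_lt_one₀ (norm_nonneg _) hv (pow_ne_zero _ hN)
    rw [Finset.sum_range_succ, ih, hfe _ hm, ← pow_mul v (N ^ n) N, ← pow_succ]
    ring

lemma pow_mem {N : ℕ} (hN : N ≠ 0) {v : ℂ} (hv : v ∈ ball (0:ℂ) 1) (n : ℕ) : v ^ (N ^ n) ∈ ball (0:ℂ) 1 := by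
  rw [mem_ball_zero_iff] at hv ⊢
  rw [norm_pow]
  exact pow_lt_one₀ (norm_nonneg _) hv (pow_ne_zero _ hN)

/-- one term -/
lemma one_term (hLIP : S_LIP) {κ B : ℝ} {γ ℓ : ℂ → ℂ} {N : ℕ} {A : ℂ → ℂ} (hF : Fx κ B γ ℓ N A)
    {u e : ℂ} {x : ℝ} (hx0 : 0 ≤ x) (hx : x ≤ 1 / N) (he : ‖e‖ = 1) (hu : u = Real.exp (-x) * e)
    (hub : u ∈ ball (0:ℂ) 1) :
    ‖ℓ (u * Complex.exp (A (u ^ N) / N)) - ℓ e‖ ≤ 1 := by
  have h0 := hF.blk.κ0
  have h1 := hF.blk.κ1
  have hB := hF.blk.B1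
  obtain ⟨hN16, hNB⟩ := N_big hF
  have hNpos : (0:ℝ) < N := by linarith
  have hN0 : N ≠ 0 := by
    rintro rfl
    norm_num at hN16
  have hNκ : 16 * B ≤ N * κ := by
    rw [div_le_iff₀ h0] at hNB; exact hNB
  have hNBB : 16 * B ^ 2 ≤ N * κ := by
    have := hF.hN
    rw [div_le_iff₀ h0] at this; exact this
  have huN : u ^ N ∈ ball (0:ℂ) 1 := by
    rw [mem_ball_zero_iff] at hub ⊢
    rw [norm_pow]
    exact pow_lt_one₀ (norm_nonneg _) hub hN0
  set a : ℂ := A (u ^ N) / N with ha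
  have han : ‖a‖ ≤ 2 * B / N := by
    rw [ha, norm_div, Complex.norm_natCast]
    exact div_le_div_of_nonneg_right (hF.bA _ huN) hNpos.le
  have han2 : ‖a‖ ≤ κ / 8 := by
    refine han.trans ?_
    rw [div_le_iff₀ hNpos]
    nlinarith
  have hexp1 : ‖Complex.exp a - 1‖ ≤ 2 * ‖a‖ := Complex.norm_exp_sub_one_le (by linarith)
  have hun : ‖u‖ ≤ 1 := by
    rw [mem_ball_zero_iff] at hub; exact hub.le
  have hw : ‖u * Complex.exp a‖ ≤ Real.exp (κ / 2) := by
    rw [norm_mul, Complex.norm_exp]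
    have e1 : Real.exp a.re ≤ Real.exp (κ / 2) := Real.exp_le_exp.2 (by
      have := (Complex.abs_re_le_norm a)
      have := (abs_le.1 this).2
      linarith)
    calc ‖u‖ * Real.exp a.re ≤ 1 * Real.exp (κ / 2) :=
          mul_le_mul hun e1 (Real.exp_pos _).le (by norm_num)
      _ = _ := one_mul _
  have hew : ‖e‖ ≤ Real.exp (κ / 2) := by
    rw [he]
    exact Real.one_le_exp (by linarith)
  have hL := hLIP κ B ℓ h0 (by linarith) hF.blk.dℓ hF.blk.bℓ (u * Complex.exp a) e hw hew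
  refine hL.trans ?_
  have hd : ‖u * Complex.exp a - e‖ ≤ 5 * B / N := by
    have e1 : u * Complex.exp a - e = u * (Complex.exp a - 1) + ((Real.exp (-x) - 1 : ℝ) : ℂ) * e := by
      rw [hu]; push_cast; ring
    rw [e1]
    refine (norm_add_le _ _).trans ?_
    rw [norm_mul, norm_mul, he, mul_one, Complex.norm_real]
    have e2 : ‖Real.exp (-x) - 1‖ ≤ 1 / N := by
      rw [Real.norm_eq_abs, abs_sub_comm, abs_of_nonneg (by
        have := Real.exp_le_one_iff.2 (show -x ≤ 0 by linarith)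
        linarith)]
      have := Real.add_one_le_exp (-x)
      linarith
    have e3 : ‖u‖ * ‖Complex.exp a - 1‖ ≤ 1 * (2 * (2 * B / N)) :=
      mul_le_mul hun (hexp1.trans (by linarith)) (norm_nonneg _) (by norm_num)
    have e4 : 1 * (2 * (2 * B / N)) + 1 / N ≤ 5 * B / N := by
      rw [show 1 * (2 * (2 * B / N)) + 1 / (N:ℝ) = (4 * B + 1) / N by ring]
      exact div_le_div_of_nonneg_right (by linarith) hNpos.le
    linarith
  calc 2 * B / κ * ‖u * Complex.exp a - e‖ ≤ 2 * B / κ * (5 * B / N) :=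
        mul_le_mul_of_nonneg_left hd (by positivity)
    _ = 10 * B ^ 2 / (κ * N) := by field_simp; ring
    _ ≤ 1 := by
        rw [div_le_one (by positivity)]
        nlinarith

lemma circ_eq (R θ : ℝ) : circ R θ = circleMap 0 R θ := by
  simp [circ, circleMap]

theorem t_LOW (hLIP : S_LIP) (hNI : S_NI) : S_LOW := by
  intro κ B γ ℓ N A E h hF hE hfe hh
  have h0 := hF.blk.κ0
  have h1 := hF.blk.κ1
  have hB := hF.blk.B1
  obtain ⟨hN16, hNB⟩ := N_big hF
  have hNpos : (0:ℝ) < N := by linarith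
  have hN0 : N ≠ 0 := by
    rintro rfl
    norm_num at hN16
  have hNκ : 16 * B ≤ N * κ := by
    rw [div_le_iff₀ h0] at hNB; exact hNB
  have hN2 : 2 ≤ N := by
    have : (2:ℝ) ≤ N := by linarith
    exact_mod_cast this
  -- bound for E on the disc of radius e^{-1}
  have hsub : closedBall (0:ℂ) (Real.exp (-1)) ⊆ ball 0 1 := by
    intro x hx
    rw [mem_closedBall_zero_iff] at hx
    rw [mem_ball_zero_iff]
    have : Real.exp (-1) < 1 := by rw [Real.exp_lt_one_iff]; norm_num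
    linarith
  obtain ⟨CE, hCE⟩ := (isCompact_closedBall (0:ℂ) (Real.exp (-1))).exists_bound_of_continuousOn
    (hE.continuousOn.mono hsub)
  have hCE0 : 0 ≤ CE := (norm_nonneg _).trans (hCE 0 (by
    rw [mem_closedBall_zero_iff, norm_zero]; exact (Real.exp_pos _).le))
  refine ⟨CE + 2 * B, by linarith, fun t n => ?_⟩
  set R : ℝ := Real.exp (1 / (N:ℝ) ^ n) with hR
  have hNn : (0:ℝ) < (N:ℝ) ^ n := pow_pos hNpos n
  have hR1 : 1 < R := by
    rw [hR]; exact Real.one_lt_exp_iff.2 (by positivity)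
  set g : ℝ → ℝ := fun x => (t * ℓ (circleMap 0 1 x)).re with hg
  have hcm : ∀ x : ℝ, ‖circleMap 0 1 x‖ = 1 := fun x => by simp
  have hLℓ : ∀ x y : ℝ, ‖ℓ (circleMap 0 1 x) - ℓ (circleMap 0 1 y)‖ ≤ 2 * B / κ * |x - y| := by
    intro x y
    have e0 : (1:ℝ) ≤ Real.exp (κ / 2) := Real.one_le_exp (by linarith)
    have e1 := hLIP κ B ℓ h0 (by linarith) hF.blk.dℓ hF.blk.bℓ (circleMap 0 1 x) (circleMap 0 1 y)
      (by rw [hcm]; exact e0) (by rw [hcm]; exact e0)
    refine e1.trans (mul_le_mul_of_nonneg_left ?_ (by positivity))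
    have e2 := (lipschitzWith_circleMap 0 1).dist_le_mul x y
    rw [dist_eq_norm, Real.dist_eq] at e2
    simpa using e2
  have hgL : ∀ x y : ℝ, |g x - g y| ≤ (‖t‖ * (2 * B / κ)) * |x - y| := by
    intro x y
    have e1 : g x - g y = (t * (ℓ (circleMap 0 1 x) - ℓ (circleMap 0 1 y))).re := by
      simp only [hg]; rw [mul_sub, Complex.sub_re]
    rw [e1]
    refine (Complex.abs_re_le_norm _).trans ?_
    rw [norm_mul, mul_assoc]
    exact mul_le_mul_of_nonneg_left (hLℓ x y) (norm_nonneg _)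
  have hgc : Continuous g := by
    have : LipschitzWith (Real.toNNReal (‖t‖ * (2 * B / κ))) g := by
      apply LipschitzWith.of_dist_le_mul
      intro x y
      rw [Real.dist_eq, Real.dist_eq, Real.coe_toNNReal _ (by positivity)]
      exact hgL x y
    exact this.continuous
  have hgp : Function.Periodic g (2 * Real.pi) := by
    intro x
    simp only [hg]
    rw [periodic_circleMap 0 1 x]
  have hni := hNI g (‖t‖ * (2 * B / κ)) ‖t‖ N hgL hgp hN2 (by positivity) (by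
    have e1 : 2 * Real.pi * (2 * B / κ) ≤ (N:ℝ) - 1 := by
      have e2 : 2 * Real.pi * (2 * B / κ) = 4 * Real.pi * B / κ := by ring
      rw [e2, div_le_iff₀ h0]
      have e3 := Real.pi_lt_d2
      nlinarith
    calc 2 * Real.pi * (‖t‖ * (2 * B / κ)) = ‖t‖ * (2 * Real.pi * (2 * B / κ)) := by ring
      _ ≤ ‖t‖ * ((N:ℝ) - 1) := mul_le_mul_of_nonneg_left e1 (norm_nonneg _)) n
  set S : ℝ → ℝ := fun θ => ∑ j ∈ Finset.range n, g ((N:ℝ) ^ j * θ) with hS
  have hSc : Continuous S := by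
    simp only [hS]
    refine continuous_finsetSum _ (fun j _ => ?_)
    exact hgc.comp (continuous_const.mul continuous_id)
  have hSp : Function.Periodic S (2 * Real.pi) := by
    intro x
    simp only [hS]
    apply Finset.sum_congr rfl
    intro j _
    have := hgp.nat_mul (N ^ j) ((N:ℝ) ^ j * x)
    rw [mul_add]
    push_cast at this
    exact this
  -- the pointwise estimate
  have hpt : ∀ θ : ℝ, Real.exp (-(‖t‖ * (CE + 2 * B + n))) * Real.exp (S (-θ)) ≤ ‖Complex.exp (t * h (circ R θ))‖ := by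
    intro θ
    rw [Complex.norm_exp, ← Real.exp_add]
    apply Real.exp_le_exp.2
    have hcz : 1 < ‖circ R θ‖ := by
      rw [circ_eq, norm_circleMap_zero, abs_of_pos (by linarith)]; exact hR1
    set v : ℂ := (circ R θ)⁻¹ with hv
    have hvb : v ∈ ball (0:ℂ) 1 := inv_mem hcz
    have hvform : v = Real.exp (-(1 / (N:ℝ) ^ n)) * circleMap 0 1 (-θ) := by
      rw [hv, circ, mul_inv, hR, ← Complex.exp_neg, Complex.ofReal_exp, Complex.ofReal_exp, ← Complex.exp_neg]
      simp [circleMap]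
    have hvpow : ∀ j : ℕ, v ^ (N ^ j) = Real.exp (-((N:ℝ) ^ j / (N:ℝ) ^ n)) * circleMap 0 1 ((N:ℝ) ^ j * (-θ)) := by
      intro j
      rw [hvform, mul_pow]
      congr 1
      · rw [← Complex.ofReal_pow, ← Real.exp_nat_mul]
        congr 2
        push_cast
        ring
      · simp only [circleMap, Complex.ofReal_one, one_mul, zero_add]
        rw [← Complex.exp_nat_mul]
        congr 1
        push_cast
        ring
    rw [hh _ hcz, ← hv, E_iter hN0 hfe hvb n]
    have hEn : ‖E (v ^ (N ^ n))‖ ≤ CE := by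
      apply hCE
      rw [mem_closedBall_zero_iff, hvpow n, div_self hNn.ne', norm_mul, hcm, mul_one, Complex.norm_real,
        Real.norm_eq_abs, abs_of_pos (Real.exp_pos _)]
    have hAn : ‖A v‖ ≤ 2 * B := hF.bA v hvb
    have hterm : ∀ j ∈ Finset.range n, g ((N:ℝ) ^ j * (-θ)) - ‖t‖ ≤
        (t * ℓ (v ^ (N ^ j) * Complex.exp (A ((v ^ (N ^ j)) ^ N) / N))).re := by
      intro j hj
      rw [Finset.mem_range] at hj
      have e0 : (N:ℝ) ^ j / (N:ℝ) ^ n ≤ 1 / N := by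
        rw [div_le_div_iff₀ hNn hNpos, one_mul, ← pow_succ]
        exact pow_le_pow_right₀ (by linarith) hj
      have e1 := one_term hLIP hF (u := v ^ (N ^ j)) (e := circleMap 0 1 ((N:ℝ) ^ j * (-θ)))
        (x := (N:ℝ) ^ j / (N:ℝ) ^ n) (by positivity) e0 (hcm _) (hvpow j) (pow_mem hN0 hvb j)
      have e2 : (t * ℓ (v ^ (N ^ j) * Complex.exp (A ((v ^ (N ^ j)) ^ N) / N))).re =
          g ((N:ℝ) ^ j * (-θ)) + (t * (ℓ (v ^ (N ^ j) * Complex.exp (A ((v ^ (N ^ j)) ^ N) / N)) -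
            ℓ (circleMap 0 1 ((N:ℝ) ^ j * (-θ))))).re := by
        simp only [hg]; rw [mul_sub, Complex.sub_re]; ring
      rw [e2]
      have e3 : |(t * (ℓ (v ^ (N ^ j) * Complex.exp (A ((v ^ (N ^ j)) ^ N) / N)) -
            ℓ (circleMap 0 1 ((N:ℝ) ^ j * (-θ))))).re| ≤ ‖t‖ := by
        refine (Complex.abs_re_le_norm _).trans ?_
        rw [norm_mul]
        calc ‖t‖ * _ ≤ ‖t‖ * 1 := mul_le_mul_of_nonneg_left e1 (norm_nonneg _)
          _ = ‖t‖ := mul_one _
      linarith [(abs_le.1 e3).1]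
    have hsum := Finset.sum_le_sum hterm
    rw [Finset.sum_sub_distrib, Finset.sum_const, Finset.card_range, nsmul_eq_mul] at hsum
    have e5 : (t * (∑ j ∈ Finset.range n, ℓ (v ^ (N ^ j) * Complex.exp (A ((v ^ (N ^ j)) ^ N) / N)) +
        E (v ^ (N ^ n)) - A v)).re =
        ∑ j ∈ Finset.range n, (t * ℓ (v ^ (N ^ j) * Complex.exp (A ((v ^ (N ^ j)) ^ N) / N))).re +
        (t * (E (v ^ (N ^ n)) - A v)).re := by
      rw [add_sub_assoc, mul_add, Complex.add_re, Finset.mul_sum, Complex.re_sum]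
    rw [e5]
    have e6 : |(t * (E (v ^ (N ^ n)) - A v)).re| ≤ ‖t‖ * (CE + 2 * B) := by
      refine (Complex.abs_re_le_norm _).trans ?_
      rw [norm_mul]
      refine mul_le_mul_of_nonneg_left ?_ (norm_nonneg _)
      exact (norm_sub_le _ _).trans (add_le_add hEn hAn)
    have e7 := (abs_le.1 e6).1
    have e8 : S (-θ) = ∑ j ∈ Finset.range n, g ((N:ℝ) ^ j * (-θ)) := rfl
    rw [e8]
    nlinarith
  -- integrate
  have hcont : Continuous (fun θ : ℝ => ‖Complex.exp (t * h (circ R θ))‖) := by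
    have hcz : ∀ θ : ℝ, 1 < ‖circ R θ‖ := fun θ => by
      rw [circ_eq, norm_circleMap_zero, abs_of_pos (by linarith)]; exact hR1
    have hcc : Continuous (fun θ : ℝ => circ R θ) := by
      have : (fun θ : ℝ => circ R θ) = circleMap 0 R := by funext θ; exact circ_eq R θ
      rw [this]; exact continuous_circleMap 0 R
    have hinv : Continuous (fun θ : ℝ => (circ R θ)⁻¹) := hcc.inv₀ (fun θ => ne0 (hcz θ))
    have hEc : Continuous (fun θ : ℝ => E (circ R θ)⁻¹) :=
      hE.continuousOn.comp_continuous hinv (fun θ => inv_mem (hcz θ))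
    have hAc : Continuous (fun θ : ℝ => A (circ R θ)⁻¹) :=
      hF.dA.continuousOn.comp_continuous hinv (fun θ => inv_mem (hcz θ))
    have : (fun θ : ℝ => ‖Complex.exp (t * h (circ R θ))‖) =
        fun θ : ℝ => ‖Complex.exp (t * (E (circ R θ)⁻¹ - A (circ R θ)⁻¹))‖ := by
      funext θ; rw [hh _ (hcz θ)]
    rw [this]
    exact (Complex.continuous_exp.comp (continuous_const.mul (hEc.sub hAc))).norm
  have hpi : (0:ℝ) ≤ 2 * Real.pi := by positivity
  have hint := intervalIntegral.integral_mono_on (μ := volume) hpi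
    ((continuous_const.mul (Real.continuous_exp.comp (hSc.comp continuous_neg))).intervalIntegrable
      (a := 0) (b := 2 * Real.pi) (μ := volume))
    (hcont.intervalIntegrable (a := 0) (b := 2 * Real.pi) (μ := volume)) (fun θ _ => hpt θ)
  have hflip : ∫ θ in (0:ℝ)..(2 * Real.pi), Real.exp (S (-θ)) = ∫ θ in (0:ℝ)..(2 * Real.pi), Real.exp (S θ) := by
    rw [intervalIntegral.integral_comp_neg (fun x => Real.exp (S x))]
    have hper : Function.Periodic (fun x => Real.exp (S x)) (2 * Real.pi) := fun x => by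
      show Real.exp (S (x + 2 * Real.pi)) = Real.exp (S x)
      rw [hSp x]
    have := hper.intervalIntegral_add_eq (-(2 * Real.pi)) 0
    simpa using this
  have hLHS : ∫ θ in (0:ℝ)..(2 * Real.pi), Real.exp (-(‖t‖ * (CE + 2 * B + n))) * Real.exp (S (-θ)) =
      Real.exp (-(‖t‖ * (CE + 2 * B + n))) * ∫ θ in (0:ℝ)..(2 * Real.pi), Real.exp (S θ) := by
    rw [intervalIntegral.integral_const_mul, hflip]
  have hint' : Real.exp (-(‖t‖ * (CE + 2 * B + n))) * ∫ θ in (0:ℝ)..(2 * Real.pi), Real.exp (S θ) ≤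
      ∫ θ in (0:ℝ)..(2 * Real.pi), ‖Complex.exp (t * h (circ R θ))‖ := by
    rw [← hLHS]; exact hint
  have hJ : J1 t ℓ = (2 * Real.pi)⁻¹ * ∫ θ in (0:ℝ)..(2 * Real.pi), Real.exp (g θ) := rfl
  have hni' : Real.exp (-‖t‖ * n) * J1 t ℓ ^ n ≤ (2 * Real.pi)⁻¹ * ∫ θ in (0:ℝ)..(2 * Real.pi), Real.exp (S θ) := by
    rw [hJ]
    have e1 : Real.exp (-‖t‖ * n) = Real.exp (-‖t‖) ^ n := by
      rw [← Real.exp_nat_mul]; congr 1; ring
    rw [e1, ← mul_pow]
    exact hni
  unfold pmean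
  rw [one_div]
  have e9 : Real.exp (-(‖t‖ * (CE + 2 * B + 2 * n))) =
      Real.exp (-(‖t‖ * (CE + 2 * B + n))) * Real.exp (-‖t‖ * n) := by
    rw [← Real.exp_add]; congr 1; ring
  rw [e9, mul_assoc]
  calc Real.exp (-(‖t‖ * (CE + 2 * B + n))) * (Real.exp (-‖t‖ * n) * J1 t ℓ ^ n) ≤
      Real.exp (-(‖t‖ * (CE + 2 * B + n))) * ((2 * Real.pi)⁻¹ * ∫ θ in (0:ℝ)..(2 * Real.pi), Real.exp (S θ)) :=
        mul_le_mul_of_nonneg_left hni' (Real.exp_pos _).le
    _ = (2 * Real.pi)⁻¹ * (Real.exp (-(‖t‖ * (CE + 2 * B + n))) * ∫ θ in (0:ℝ)..(2 * Real.pi), Real.exp (S θ)) := by ring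
    _ ≤ _ := mul_le_mul_of_nonneg_left hint' (by positivity)

end Run7.h705.SR
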